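import Mathlib

set_option autoImplicit false

namespace Pool.Agent.Lib.MP_a13a55_pr.Sym

/-- arcs between matched fibres -/
def mt (c : Fin 3) (a b f : Bool) : Bool :=
  if c = 0 then a && !b else if c = 1 then (a == !f) && (b == !f) else false

def prism (r a b : Bool) : Bool := (a == b) || (r && a && !b) || (!r && !a && b)

def pm (r a b f g h : Bool) : Bool :=
  if f == g then a != b
  else if g == h then (a == b) && (a == !r) else (a == b) && (a == r)

/-- arcs inside an octahedron -/
def tt (c : Fin 3) (r a b f g h : Bool) : Bool :=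
  if c = 0 then r && !a && b
  else if c = 1 then prism r a b && pm r a b f g h && (a == f) && (b == !g)
  else prism r a b && !pm r a b f g h &&
    (if (f == g) && (g == h) then r else if a == b then a == r else f == h)

def thd (i j : Fin 3) : Fin 3 := -(i + j)

/-- out-arcs from `(x, i, b)` to the nearby vertex with index `q`, in terms of local data -/
def outB (r : Bool) (U f : Fin 3 → Bool) (U' : Bool) (c i : Fin 3) (b : Bool)
    (q : Bool × Fin 3 × Bool) : Bool :=
  if q.1 then decide (q.2.1 = i) && mt c (U i == b) (U' == q.2.2) (f i)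
  else decide (i ≠ q.2.1) &&
    tt c (r == decide (q.2.1 = i + 1)) (U i == b) (U q.2.1 == q.2.2) (f i) (f q.2.1) (f (thd i q.2.1))

/-- in-arcs to `(x, i, b)` from the nearby vertex with index `q` -/
def inB (r : Bool) (U f : Fin 3 → Bool) (U' : Bool) (c i : Fin 3) (b : Bool)
    (q : Bool × Fin 3 × Bool) : Bool :=
  if q.1 then decide (q.2.1 = i) && mt c (U' == q.2.2) (U i == b) (!f i)
  else decide (i ≠ q.2.1) &&
    tt c (r == decide (i = q.2.1 + 1)) (U q.2.1 == q.2.2) (U i == b) (f q.2.1) (f i) (f (thd q.2.1 i))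

lemma out_card : ∀ (r u0 u1 u2 f0 f1 f2 U' : Bool) (c i : Fin 3) (b : Bool),
    (Finset.univ.filter fun q => outB r ![u0, u1, u2] ![f0, f1, f2] U' c i b q = true).card = 1 := by
  decide +kernel

lemma in_card : ∀ (r u0 u1 u2 f0 f1 f2 U' : Bool) (c i : Fin 3) (b : Bool),
    (Finset.univ.filter fun q => inB r ![u0, u1, u2] ![f0, f1, f2] U' c i b q = true).card = 1 := by
  decide +kernel

lemma arcs : ∀ (r u0 u1 u2 f0 f1 f2 U' : Bool) (i : Fin 3) (b : Bool) (q : Bool × Fin 3 × Bool),
    (q.1 = decide (q.2.1 = i) ↔ ∃ c, outB r ![u0, u1, u2] ![f0, f1, f2] U' c i b q = true ∨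
      inB r ![u0, u1, u2] ![f0, f1, f2] U' c i b q = true) ∧
    (∀ c c', outB r ![u0, u1, u2] ![f0, f1, f2] U' c i b q = true →
      (outB r ![u0, u1, u2] ![f0, f1, f2] U' c' i b q = true → c = c') ∧
      ¬ inB r ![u0, u1, u2] ![f0, f1, f2] U' c' i b q = true) := by
  decide +kernel

lemma vec3 (U : Fin 3 → Bool) : U = ![U 0, U 1, U 2] := by
  funext i; fin_cases i <;> rfl

lemma out_unique (r : Bool) (U f : Fin 3 → Bool) (U' : Bool) (c i : Fin 3) (b : Bool) :
    ∃! q, outB r U f U' c i b q = true := by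
  have := out_card r (U 0) (U 1) (U 2) (f 0) (f 1) (f 2) U' c i b
  rw [← vec3, ← vec3, Finset.card_eq_one_iff_existsUnique] at this
  simpa using this

lemma in_unique (r : Bool) (U f : Fin 3 → Bool) (U' : Bool) (c i : Fin 3) (b : Bool) :
    ∃! q, inB r U f U' c i b q = true := by
  have := in_card r (U 0) (U 1) (U 2) (f 0) (f 1) (f 2) U' c i b
  rw [← vec3, ← vec3, Finset.card_eq_one_iff_existsUnique] at this
  simpa using this

lemma arcs' (r : Bool) (U f : Fin 3 → Bool) (U' : Bool) (i : Fin 3) (b : Bool)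
    (q : Bool × Fin 3 × Bool) :
    (q.1 = decide (q.2.1 = i) ↔ ∃ c, outB r U f U' c i b q = true ∨ inB r U f U' c i b q = true) ∧
    (∀ c c', outB r U f U' c i b q = true →
      (outB r U f U' c' i b q = true → c = c') ∧ ¬ inB r U f U' c' i b q = true) := by
  have := arcs r (U 0) (U 1) (U 2) (f 0) (f 1) (f 2) U' i b q
  rwa [← vec3, ← vec3] at this

lemma thd_spec : ∀ i j k : Fin 3, i ≠ j → ((i ≠ k ∧ j ≠ k) ↔ k = thd i j) := by decide

end Pool.Agent.Lib.MP_a13a55_pr.Sym
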