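import Pool.Agent.Lib.MP_a13a55_pr.Tree
import Pool.Agent.Lib.MP_a13a55_pr.Table

set_option autoImplicit false

namespace Pool.Agent.Lib.MP_a13a55_pr.Sym

open MeasureTheory

noncomputable section

open Classical

def val (ω : V → unitInterval) (u : V) : unitInterval := max (ω u) (ω (tw u))

def up (ω : V → unitInterval) (u : V) : Bool := decide (ω (tw u) < ω u)

def fl (ω : V → unitInterval) (u : V) : Bool := decide (∃ v, Mat u v ∧ val ω v < val ω u)

def cyc (a b c : unitInterval) : Bool :=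
  decide ((a < b ∧ b < c) ∨ (b < c ∧ c < a) ∨ (c < a ∧ a < b))

def D (ω : V → unitInterval) (c : Fin 3) (u v : V) : Prop :=
  (Mat u v ∧ mt c (up ω u) (up ω v) (fl ω u) = true) ∨
  (Tri u v ∧ ∃ w, Tri u w ∧ Tri v w ∧
    tt c (cyc (val ω u) (val ω v) (val ω w)) (up ω u) (up ω v) (fl ω u) (fl ω v) (fl ω w) = true)

lemma D.adj {ω : V → unitInterval} {c : Fin 3} {u v : V} (h : D ω c u v) : G.Adj u v :=
  h.elim (fun h => Or.inr h.1) (fun h => Or.inl h.1)

/-! ### Equivariance -/

lemma val_aut (φ : G ≃g G) (ω : V → unitInterval) (u : V) :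
    val (fun x => ω (φ.symm x)) (φ u) = val ω u := by
  simp only [val, aut_tw, RelIso.symm_apply_apply]

lemma up_aut (φ : G ≃g G) (ω : V → unitInterval) (u : V) :
    up (fun x => ω (φ.symm x)) (φ u) = up ω u := by
  simp only [up, aut_tw, RelIso.symm_apply_apply]

lemma fl_aut (φ : G ≃g G) (ω : V → unitInterval) (u : V) :
    fl (fun x => ω (φ.symm x)) (φ u) = fl ω u := by
  unfold fl
  rw [decide_eq_decide, φ.surjective.exists]
  simp only [aut_mat, val_aut]

lemma D_aut (φ : G ≃g G) (ω : V → unitInterval) (c : Fin 3) (u v : V) :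
    D (fun x => ω (φ.symm x)) c (φ u) (φ v) ↔ D ω c u v := by
  unfold D
  rw [φ.surjective.exists]
  simp only [aut_mat, aut_tri, val_aut, up_aut, fl_aut]

/-! ### Measurability -/

lemma meas_decide {p : (V → unitInterval) → Prop} {inst : DecidablePred p} (hp : Measurable p) :
    Measurable fun ω => decide (p ω) := by
  have : (fun ω => decide (p ω)) = (fun q : Prop => @decide q (Classical.propDecidable q)) ∘ p := by
    funext ω
    exact decide_eq_decide.2 Iff.rfl
  rw [this]
  exact (measurable_of_countable _).comp hp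

lemma meas_lt {f g : (V → unitInterval) → unitInterval} (hf : Measurable f) (hg : Measurable g) :
    Measurable fun ω => f ω < g ω :=
  measurableSet_setOfPred.1 (measurableSet_lt hf hg)

lemma meas_val (u : V) : Measurable fun ω => val ω u :=
  (measurable_pi_apply u).max (measurable_pi_apply (tw u))

lemma meas_up (u : V) : Measurable fun ω => up ω u :=
  meas_decide (meas_lt (measurable_pi_apply (tw u)) (measurable_pi_apply u))

lemma meas_fl (u : V) : Measurable fun ω => fl ω u :=
  meas_decide (Measurable.exists fun v => measurable_const.and (meas_lt (meas_val v) (meas_val u)))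

lemma meas_cyc (u v w : V) : Measurable fun ω => cyc (val ω u) (val ω v) (val ω w) :=
  meas_decide (((meas_lt (meas_val u) (meas_val v)).and
    (meas_lt (meas_val v) (meas_val w))).or (((meas_lt (meas_val v) (meas_val w)).and
    (meas_lt (meas_val w) (meas_val u))).or ((meas_lt (meas_val w) (meas_val u)).and
    (meas_lt (meas_val u) (meas_val v)))))

lemma meas_D : Measurable D := by
  refine measurable_pi_lambda _ fun c => measurable_pi_lambda _ fun u =>
    measurable_pi_lambda _ fun v => ?_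
  refine (measurable_const.and ?_).or (measurable_const.and (Measurable.exists fun w =>
    measurable_const.and (measurable_const.and ?_)))
  · exact (measurable_of_countable fun p : Bool × Bool × Bool =>
      mt c p.1 p.2.1 p.2.2 = true).comp ((meas_up u).prodMk ((meas_up v).prodMk (meas_fl u)))
  · exact (measurable_of_countable fun p : Bool × Bool × Bool × Bool × Bool × Bool =>
      tt c p.1 p.2.1 p.2.2.1 p.2.2.2.1 p.2.2.2.2.1 p.2.2.2.2.2 = true).comp
      ((meas_cyc u v w).prodMk ((meas_up u).prodMk ((meas_up v).prodMk ((meas_fl u).prodMk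
        ((meas_fl v).prodMk (meas_fl w))))))

lemma ae_injective :
    ∀ᵐ ω ∂(Measure.infinitePi fun _ : V => (volume : Measure unitInterval)),
      Function.Injective ω := by
  unfold Function.Injective
  refine ae_all_iff.2 fun u => ae_all_iff.2 fun v => ?_
  by_cases h : u = v
  · exact Filter.Eventually.of_forall fun _ _ => h
  have h1 := (ProbabilityTheory.iIndepFun_infinitePi (P := fun _ : V =>
    (volume : Measure unitInterval)) (X := fun _ x => x) fun _ => measurable_id).indepFun h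
  have h2 := (ProbabilityTheory.indepFun_iff_map_prod_eq_prod_map_map
    (measurable_pi_apply u).aemeasurable (measurable_pi_apply v).aemeasurable).1 h1
  rw [Measure.infinitePi_map_eval, Measure.infinitePi_map_eval] at h2
  have h3 : MeasurableSet {p : unitInterval × unitInterval | p.1 = p.2} :=
    measurableSet_eq_fun measurable_fst measurable_snd
  have h4 : ((volume : Measure unitInterval).prod (volume : Measure unitInterval))
      {p : unitInterval × unitInterval | p.1 = p.2} = 0 := by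
    rw [Measure.prod_apply h3]
    have : ∀ x : unitInterval, Prod.mk x ⁻¹' {p : unitInterval × unitInterval | p.1 = p.2} = {x} := by
      intro x; ext y; simp [eq_comm]
    simp [this]
  rw [← h2, Measure.map_apply ((measurable_pi_apply u).prodMk (measurable_pi_apply v)) h3] at h4
  rw [ae_iff]
  refine measure_mono_null (fun ω hω => ?_) h4
  by_contra h5
  exact hω fun h6 => absurd h6 h5

/-! ### Local form -/

variable {ω : V → unitInterval}

lemma val_bit (x : RW) (j : Fin 3) (c : Bool) : val ω (x, j, c) = val ω (x, j, true) := by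
  cases c
  · exact max_comm _ _
  · rfl

lemma val_mem (x : RW) (j : Fin 3) (c : Bool) : ∃ d, val ω (x, j, c) = ω (x, j, d) := by
  rcases max_choice (ω (x, j, c)) (ω (tw (x, j, c))) with h | h
  · exact ⟨c, h⟩
  · exact ⟨!c, h⟩

lemma val_ne (h : Function.Injective ω) {x y : RW} {i j : Fin 3} (b c : Bool)
    (hne : x ≠ y ∨ i ≠ j) : val ω (x, i, b) ≠ val ω (y, j, c) := by
  obtain ⟨d, hd⟩ := val_mem (ω := ω) x i b
  obtain ⟨e, he⟩ := val_mem (ω := ω) y j c
  rw [hd, he]
  intro h1
  have h2 := h h1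
  simp only [Prod.mk.injEq] at h2
  tauto

lemma up_bit (h : Function.Injective ω) (x : RW) (j : Fin 3) (c : Bool) :
    up ω (x, j, c) = (up ω (x, j, true) == c) := by
  cases c
  · have h1 : ω (x, j, true) ≠ ω (x, j, false) := fun h1 => by simpa using h h1
    simp only [up, tw, Bool.not_false, Bool.not_true]
    rcases lt_or_gt_of_ne h1 with h2 | h2
    · simp [h2, h2.not_gt]
    · simp [h2, h2.not_gt]
  · simp

lemma fl_eq (x : RW) (j : Fin 3) (c : Bool) :
    fl ω (x, j, c) = decide (val ω (step j x, j, true) < val ω (x, j, true)) := by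
  unfold fl
  rw [decide_eq_decide, val_bit]
  constructor
  · rintro ⟨⟨y, k, d⟩, ⟨h1, h2⟩, h3⟩
    dsimp only at h1 h2
    subst h1 h2
    rwa [val_bit] at h3
  · exact fun h => ⟨(step j x, j, true), ⟨rfl, rfl⟩, h⟩

lemma fl_bit (x : RW) (j : Fin 3) (c : Bool) : fl ω (x, j, c) = fl ω (x, j, true) := by
  rw [fl_eq, fl_eq]

lemma fl_step (h : Function.Injective ω) (x : RW) (j : Fin 3) (c : Bool) :
    fl ω (step j x, j, c) = !fl ω (x, j, true) := by
  rw [fl_eq, fl_eq, step_step]
  rcases lt_or_gt_of_ne (val_ne h true true (Or.inl (step_ne j x) : _ ∨ j ≠ j)) with h2 | h2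
  · simp [h2, h2.not_gt]
  · simp [h2, h2.not_gt]

lemma cyc_rot (a b c : unitInterval) : cyc b c a = cyc a b c := by
  unfold cyc; rw [decide_eq_decide]; tauto

lemma cyc_swap {a b c : unitInterval} (h1 : a ≠ b) (h2 : b ≠ c) (h3 : a ≠ c) :
    cyc b a c = !cyc a b c := by
  unfold cyc
  rcases lt_or_gt_of_ne h1 with h1 | h1 <;> rcases lt_or_gt_of_ne h2 with h2 | h2 <;>
    rcases lt_or_gt_of_ne h3 with h3 | h3 <;>
    simp [h1, h2, h3, h1.not_gt, h2.not_gt, h3.not_gt]

lemma cyc_eq (m : Fin 3 → unitInterval) (hm : ∀ i j, i ≠ j → m i ≠ m j) (i j : Fin 3)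
    (h : i ≠ j) : cyc (m i) (m j) (m (thd i j)) = (cyc (m 0) (m 1) (m 2) == decide (j = i + 1)) := by
  have a := cyc_swap (hm 0 1 (by decide)) (hm 1 2 (by decide)) (hm 0 2 (by decide))
  have e1 : cyc (m 1) (m 2) (m 0) = cyc (m 0) (m 1) (m 2) := cyc_rot _ _ _
  have e2 : cyc (m 2) (m 0) (m 1) = cyc (m 0) (m 1) (m 2) := (cyc_rot _ _ _).trans e1
  have e3 : cyc (m 0) (m 2) (m 1) = !cyc (m 0) (m 1) (m 2) := (cyc_rot _ _ _).trans a
  have e4 : cyc (m 2) (m 1) (m 0) = !cyc (m 0) (m 1) (m 2) := (cyc_rot _ _ _).trans e3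
  fin_cases i <;> fin_cases j <;> first
    | exact absurd rfl h
    | (change cyc (m 0) (m 1) (m 2) = (_ == true); simp)
    | (change cyc (m 1) (m 2) (m 0) = (_ == true); simp [e1])
    | (change cyc (m 2) (m 0) (m 1) = (_ == true); simp [e2])
    | (change cyc (m 1) (m 0) (m 2) = (_ == false); simp [a])
    | (change cyc (m 0) (m 2) (m 1) = (_ == false); simp [e3])
    | (change cyc (m 2) (m 1) (m 0) = (_ == false); simp [e4])

lemma D_tri (h : Function.Injective ω) (c : Fin 3) (x : RW) (i j : Fin 3) (b d : Bool) :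
    D ω c (x, i, b) (x, j, d) ↔ i ≠ j ∧
      tt c (cyc (val ω (x, 0, true)) (val ω (x, 1, true)) (val ω (x, 2, true)) == decide (j = i + 1))
        (up ω (x, i, true) == b) (up ω (x, j, true) == d) (fl ω (x, i, true)) (fl ω (x, j, true))
        (fl ω (x, thd i j, true)) = true := by
  have hc := cyc_eq (fun k => val ω (x, k, true)) (fun k l hkl => val_ne h _ _ (Or.inr hkl)) i j
  constructor
  · rintro (⟨h1, -⟩ | ⟨h1, ⟨y, k, e⟩, h2, h3, h4⟩)
    · exact absurd h1.1.symm (step_ne _ _)
    · have hy : y = x := h2.1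
      subst hy
      have hk : k = thd i j := (thd_spec i j k h1.2).1 ⟨h2.2, h3.2⟩
      subst hk
      refine ⟨h1.2, ?_⟩
      rwa [val_bit _ i, val_bit _ j, val_bit _ (thd i j), up_bit h _ i, up_bit h _ j, fl_bit _ i,
        fl_bit _ j, fl_bit _ (thd i j), hc h1.2] at h4
  · rintro ⟨h1, h4⟩
    have hk := (thd_spec i j _ h1).2 rfl
    refine Or.inr ⟨⟨rfl, h1⟩, (x, thd i j, true), ⟨rfl, hk.1⟩, ⟨rfl, hk.2⟩, ?_⟩
    rwa [val_bit _ i, val_bit _ j, up_bit h _ i, up_bit h _ j, fl_bit _ i, fl_bit _ j, hc h1]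

lemma D_out (h : Function.Injective ω) (c : Fin 3) (x : RW) (i : Fin 3) (b : Bool)
    (q : Bool × Fin 3 × Bool) : D ω c (x, i, b) (emb x i q) ↔
      outB (cyc (val ω (x, 0, true)) (val ω (x, 1, true)) (val ω (x, 2, true)))
        (fun k => up ω (x, k, true)) (fun k => fl ω (x, k, true)) (up ω (step i x, i, true))
        c i b q = true := by
  obtain ⟨a, j, d⟩ := q
  cases a
  · change D ω c (x, i, b) (x, j, d) ↔ _
    rw [D_tri h]
    simp only [outB, Bool.false_eq_true, if_false, Bool.and_eq_true, decide_eq_true_eq]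
  · change D ω c (x, i, b) (step i x, j, d) ↔ _
    simp only [outB, if_true, Bool.and_eq_true, decide_eq_true_eq]
    constructor
    · rintro (⟨h1, h2⟩ | ⟨h1, -⟩)
      · have h3 : j = i := h1.2
        subst h3
        rw [up_bit h x, up_bit h (step j x), fl_bit] at h2
        exact ⟨rfl, h2⟩
      · exact absurd h1.1 (step_ne _ _)
    · rintro ⟨rfl, h2⟩
      refine Or.inl ⟨⟨rfl, rfl⟩, ?_⟩
      rwa [up_bit h x, up_bit h (step j x), fl_bit]

lemma D_in (h : Function.Injective ω) (c : Fin 3) (x : RW) (i : Fin 3) (b : Bool)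
    (q : Bool × Fin 3 × Bool) : D ω c (emb x i q) (x, i, b) ↔
      inB (cyc (val ω (x, 0, true)) (val ω (x, 1, true)) (val ω (x, 2, true)))
        (fun k => up ω (x, k, true)) (fun k => fl ω (x, k, true)) (up ω (step i x, i, true))
        c i b q = true := by
  obtain ⟨a, j, d⟩ := q
  cases a
  · change D ω c (x, j, d) (x, i, b) ↔ _
    rw [D_tri h]
    simp only [inB, Bool.false_eq_true, if_false, Bool.and_eq_true, decide_eq_true_eq, ne_comm]
  · change D ω c (step i x, j, d) (x, i, b) ↔ _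
    simp only [inB, if_true, Bool.and_eq_true, decide_eq_true_eq]
    constructor
    · rintro (⟨h1, h2⟩ | ⟨h1, -⟩)
      · have h3 : i = j := h1.2
        subst h3
        rw [up_bit h x, up_bit h (step i x), fl_step h] at h2
        exact ⟨rfl, h2⟩
      · exact absurd h1.1.symm (step_ne _ _)
    · rintro ⟨rfl, h2⟩
      refine Or.inl ⟨⟨(step_step _ _).symm, rfl⟩, ?_⟩
      rwa [up_bit h x, up_bit h (step j x), fl_step h]

lemma adj_emb (x : RW) (i : Fin 3) (b : Bool) (q : Bool × Fin 3 × Bool) :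
    G.Adj (x, i, b) (emb x i q) ↔ q.1 = decide (q.2.1 = i) := by
  obtain ⟨a, j, d⟩ := q
  have := step_ne i x
  cases a
  · simp [adj_iff, Tri, Mat, emb, this.symm, eq_comm]
  · simp [adj_iff, Tri, Mat, emb, this]

lemma exists_emb {x : RW} {i : Fin 3} {b : Bool} {v : V} (h : G.Adj (x, i, b) v) :
    ∃ q, v = emb x i q := by
  obtain ⟨y, j, d⟩ := v
  rcases h with h | h
  · exact ⟨(false, j, d), Prod.ext h.1 rfl⟩
  · exact ⟨(true, j, d), Prod.ext h.1 rfl⟩

lemma adj_iff_D (h : Function.Injective ω) (u v : V) :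
    G.Adj u v ↔ ∃ c, D ω c u v ∨ D ω c v u := by
  constructor
  · intro h1
    obtain ⟨x, i, b⟩ := u
    obtain ⟨q, rfl⟩ := exists_emb h1
    simp only [D_out h, D_in h]
    exact (arcs' _ _ _ _ i b q).1.1 ((adj_emb x i b q).1 h1)
  · rintro ⟨c, h1 | h1⟩
    · exact h1.adj
    · exact h1.adj.symm

lemma D_excl (h : Function.Injective ω) {c c' : Fin 3} {u v : V} (h1 : D ω c u v) :
    (D ω c' u v → c = c') ∧ ¬ D ω c' v u := by
  obtain ⟨x, i, b⟩ := u
  obtain ⟨q, rfl⟩ := exists_emb h1.adj
  rw [D_out h] at h1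
  rw [D_out h, D_in h]
  exact (arcs' _ _ _ _ i b q).2 c c' h1

lemma D_out_unique (h : Function.Injective ω) (c : Fin 3) (u : V) : ∃! v, D ω c u v := by
  obtain ⟨x, i, b⟩ := u
  obtain ⟨q, h1, h2⟩ := out_unique
    (cyc (val ω (x, 0, true)) (val ω (x, 1, true)) (val ω (x, 2, true)))
    (fun k => up ω (x, k, true)) (fun k => fl ω (x, k, true)) (up ω (step i x, i, true)) c i b
  refine ⟨emb x i q, (D_out h c x i b q).2 h1, fun v hv => ?_⟩
  obtain ⟨q', rfl⟩ := exists_emb hv.adj
  rw [h2 q' ((D_out h c x i b q').1 hv)]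

lemma D_in_unique (h : Function.Injective ω) (c : Fin 3) (u : V) : ∃! v, D ω c v u := by
  obtain ⟨x, i, b⟩ := u
  obtain ⟨q, h1, h2⟩ := in_unique
    (cyc (val ω (x, 0, true)) (val ω (x, 1, true)) (val ω (x, 2, true)))
    (fun k => up ω (x, k, true)) (fun k => fl ω (x, k, true)) (up ω (step i x, i, true)) c i b
  refine ⟨emb x i q, (D_in h c x i b q).2 h1, fun v hv => ?_⟩
  obtain ⟨q', rfl⟩ := exists_emb hv.adj.symm
  rw [h2 q' ((D_in h c x i b q').1 hv)]

/-! ### Infinite paths of colour zero -/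

lemma D_zero {u v : V} (h : D ω 0 u v) :
    (Mat u v ∧ up ω u = true ∧ up ω v = false) ∨ (Tri u v ∧ up ω u = false ∧ up ω v = true) := by
  rcases h with ⟨h1, h2⟩ | ⟨h1, w, -, -, h2⟩
  · exact Or.inl ⟨h1, by simpa [mt] using h2⟩
  · refine Or.inr ⟨h1, ?_⟩
    simp only [tt, if_true, Bool.and_eq_true, Bool.not_eq_true'] at h2
    exact ⟨h2.1.2, h2.2⟩

lemma no_return (p : ℕ → V) (hp : ∀ n, D ω 0 (p n) (p (n + 1))) (h0 : up ω (p 0) = true) (n : ℕ)
    (hn : p n = p 0) : n = 0 := by
  obtain ⟨g, hg, hg'⟩ := exists_equiv 1 root (p 0).1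
  have key : ∀ n, ∃ w : RW, (p n).1 = g w ∧
      ((up ω (p n) = true ∧ w.1.head? ≠ some (p n).2.1 ∧ 2 * w.1.length = n) ∨
        (up ω (p n) = false ∧ w.1.head? = some (p n).2.1 ∧ 2 * w.1.length = n + 1)) := by
    intro n
    induction n with
    | zero => exact ⟨root, hg.symm, Or.inl ⟨h0, by simp [root], rfl⟩⟩
    | succ n ih =>
      obtain ⟨w, h1, h2⟩ := ih
      rcases D_zero (hp n) with ⟨h3, h4, h5⟩ | ⟨h3, h4, h5⟩
      · rcases h2 with ⟨-, h6, h7⟩ | ⟨h6, -⟩
        · refine ⟨step (p n).2.1 w, by rw [hg', h3.1, h1]; rfl, Or.inr ⟨h5, ?_, ?_⟩⟩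
          · rw [step_of_not h6, h3.2]; rfl
          · rw [step_of_not h6, List.length_cons]; omega
        · rw [h4] at h6; exact absurd h6 (by decide)
      · rcases h2 with ⟨h6, -⟩ | ⟨-, h6, h7⟩
        · rw [h4] at h6; exact absurd h6 (by decide)
        · refine ⟨w, by rw [h3.1, h1], Or.inl ⟨h5, ?_, h7⟩⟩
          rw [h6]
          exact fun h8 => h3.2 (Option.some.inj h8)
  obtain ⟨w, h1, h2⟩ := key n
  rw [hn] at h1 h2
  have hw : w = root := g.injective (h1.symm.trans hg.symm)
  subst hw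
  rcases h2 with ⟨-, -, h3⟩ | ⟨h3, -⟩
  · exact h3.symm
  · rw [h0] at h3; exact absurd h3 (by decide)

lemma inf_path (h : Function.Injective ω) (u : V) :
    ∃ p : ℤ → V, p 0 = u ∧ Function.Injective p ∧ ∀ n, D ω 0 (p n) (p (n + 1)) := by
  choose f hf hf' using D_out_unique h 0
  have hb : Function.Bijective f := by
    constructor
    · intro a b hab
      exact (D_in_unique h 0 (f b)).unique (hab ▸ hf a) (hf b)
    · intro v
      obtain ⟨a, ha, -⟩ := D_in_unique h 0 v
      exact ⟨a, (hf' a v ha).symm⟩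
  let π : Equiv.Perm V := Equiv.ofBijective f hb
  have h1 : ∀ (n : ℕ) (v : V), up ω v = true → (π ^ n) v = v → n = 0 := fun n v hv hn =>
    no_return (fun k => (π ^ k) v) (fun k => by rw [pow_succ']; exact hf _) hv n hn
  have h2 : ∀ (n : ℕ) (v : V), (π ^ n) v = v → n = 0 := by
    intro n v hn
    rcases D_zero (hf v) with ⟨-, h3, -⟩ | ⟨-, -, h3⟩
    · exact h1 n v h3 hn
    · refine h1 n (π v) h3 ?_
      rw [← Equiv.Perm.mul_apply, ← pow_succ, pow_succ', Equiv.Perm.mul_apply, hn]
  have h3 : ∀ m n : ℤ, m ≤ n → (π ^ m) u = (π ^ n) u → m = n := by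
    intro m n hmn he
    obtain ⟨k, rfl⟩ := Int.le.dest hmn
    rw [add_comm, zpow_add, Equiv.Perm.mul_apply, zpow_natCast] at he
    rw [h2 k _ he.symm]; simp
  refine ⟨fun n => (π ^ n) u, rfl, fun m n he => ?_, fun n => ?_⟩
  · rcases le_total m n with hmn | hmn
    · exact h3 m n hmn he
    · exact (h3 n m hmn he.symm).symm
  · dsimp only
    rw [add_comm, zpow_one_add]
    exact hf _

end

end Pool.Agent.Lib.MP_a13a55_pr.Sym
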