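import Mathlib

/-! A Cayley graph of the discrete Heisenberg group all of whose automorphisms are left
translations. -/

namespace Pool.Agent.Lib.MP_a13a55_pr

/-- The discrete Heisenberg group. -/
@[ext] structure Heis where
  a : ℤ
  b : ℤ
  c : ℤ
deriving DecidableEq

instance : Mul Heis := ⟨fun g h => ⟨g.a + h.a, g.b + h.b, g.c + h.c + g.a * h.b⟩⟩
instance : One Heis := ⟨⟨0, 0, 0⟩⟩
instance : Inv Heis := ⟨fun g => ⟨-g.a, -g.b, -g.c + g.a * g.b⟩⟩

theorem mul_def (g h : Heis) : g * h = ⟨g.a + h.a, g.b + h.b, g.c + h.c + g.a * h.b⟩ := rfl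
theorem one_def : (1 : Heis) = ⟨0, 0, 0⟩ := rfl
theorem inv_def (g : Heis) : g⁻¹ = ⟨-g.a, -g.b, -g.c + g.a * g.b⟩ := rfl

instance : Group Heis := Group.ofLeftAxioms
  (fun x y z => by simp only [mul_def]; ext <;> simp <;> ring)
  (fun x => by simp only [mul_def, one_def]; ext <;> simp)
  (fun x => by simp only [mul_def, one_def, inv_def]; ext <;> simp)

instance : Countable Heis :=
  Function.Injective.countable (f := fun g : Heis => (g.a, g.b, g.c)) (by
    intro g h hgh
    simp only [Prod.mk.injEq] at hgh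
    exact Heis.ext hgh.1 hgh.2.1 hgh.2.2)

/-- the symmetric generating set: five elements followed by their inverses -/
def gen : Fin 10 → Heis :=
  ![⟨1, 0, 0⟩, ⟨0, 1, 0⟩, ⟨0, 1, -1⟩, ⟨1, -1, -1⟩, ⟨1, 1, 0⟩,
    ⟨-1, 0, 0⟩, ⟨0, -1, 0⟩, ⟨0, -1, 1⟩, ⟨-1, 1, 0⟩, ⟨-1, -1, 1⟩]

theorem gen_inj : ∀ i j, gen i = gen j → i = j := by decide +kernel

theorem gen_ne_one : ∀ i, gen i ≠ 1 := by decide +kernel

theorem gen_inv : ∀ i, gen (i + 5) = (gen i)⁻¹ := by decide +kernel

/-- the link adjacency as a table of bit masks -/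
def tb (i j : Fin 10) : Bool :=
  ((![88, 272, 32, 1, 3, 580, 33, 512, 2, 160] : Fin 10 → ℕ) i).testBit j

theorem tb_iff : ∀ i j, (∃ k, gen j = gen i * gen k) ↔ tb i j = true := by decide +kernel

set_option synthInstance.maxSize 100000 in
theorem rigid_aux : ∀ a0 a3 : Fin 10, tb a0 a3 = true → ∀ a4, tb a0 a4 = true → a4 ≠ a3 →
    ∀ a6, tb a0 a6 = true → a6 ≠ a3 → a6 ≠ a4 → ∀ a1, tb a4 a1 = true → a1 ≠ a0 →
    ∀ a5, tb a6 a5 = true → a5 ≠ a0 → ∀ a8, tb a1 a8 = true → a8 ≠ a4 →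
    ∀ a2, tb a5 a2 = true → a2 ≠ a6 → ∀ a9, tb a5 a9 = true → a9 ≠ a6 → a9 ≠ a2 →
    ∀ a7, tb a9 a7 = true → a7 ≠ a5 →
    a0 = 0 ∧ a1 = 1 ∧ a2 = 2 ∧ a3 = 3 ∧ a4 = 4 ∧ a5 = 5 ∧ a6 = 6 ∧ a7 = 7 ∧ a8 = 8 ∧ a9 = 9 := by
  decide +kernel

theorem rigid (σ : Fin 10 → Fin 10) (hinj : Function.Injective σ)
    (h : ∀ i j, tb i j = true → tb (σ i) (σ j) = true) (i : Fin 10) : σ i = i := by
  have hne : ∀ i j, i ≠ j → σ i ≠ σ j := fun i j hij h => hij (hinj h)
  obtain ⟨h0, h1, h2, h3, h4, h5, h6, h7, h8, h9⟩ := rigid_aux (σ 0) (σ 3) (h _ _ (by decide))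
    (σ 4) (h _ _ (by decide)) (hne _ _ (by decide))
    (σ 6) (h _ _ (by decide)) (hne _ _ (by decide)) (hne _ _ (by decide))
    (σ 1) (h _ _ (by decide)) (hne _ _ (by decide))
    (σ 5) (h _ _ (by decide)) (hne _ _ (by decide))
    (σ 8) (h _ _ (by decide)) (hne _ _ (by decide))
    (σ 2) (h _ _ (by decide)) (hne _ _ (by decide))
    (σ 9) (h _ _ (by decide)) (hne _ _ (by decide)) (hne _ _ (by decide))
    (σ 7) (h _ _ (by decide)) (hne _ _ (by decide))
  fin_cases i <;> assumption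

/-- the Cayley graph -/
def cay : SimpleGraph Heis where
  Adj u v := ∃ i, v = u * gen i
  symm := ⟨by
    rintro u v ⟨i, rfl⟩
    exact ⟨i + 5, by rw [gen_inv]; group⟩⟩
  loopless := ⟨by
    rintro u ⟨i, hi⟩
    exact gen_ne_one i (by simpa using hi)⟩

theorem cay_adj (u v : Heis) : cay.Adj u v ↔ ∃ i, v = u * gen i := Iff.rfl

theorem encard_neighborSet (u : Heis) : (cay.neighborSet u).encard = 10 := by
  have : cay.neighborSet u = Set.range fun i => u * gen i := by
    ext v; simp [cay_adj, eq_comm]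
  rw [this, ← Set.image_univ, Function.Injective.encard_image
    (fun i j h => gen_inj i j (mul_left_cancel h))]
  simp

theorem reach_mul (g : Heis) (u : Heis) : cay.Reachable u (u * g) := by
  let H : Subgroup Heis :=
    { carrier := {g | ∀ u, cay.Reachable u (u * g)}
      mul_mem' := fun {a b} ha hb u => by
        rw [← mul_assoc]; exact (ha u).trans (hb _)
      one_mem' := fun u => by rw [mul_one]
      inv_mem' := fun {a} ha u => by
        have := (ha (u * a⁻¹)).symm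
        rwa [inv_mul_cancel_right] at this }
  have hg : ∀ i, gen i ∈ H := fun i u => SimpleGraph.Adj.reachable ⟨i, rfl⟩
  have hz : (⟨0, 0, 1⟩ : Heis) ∈ H := by
    have := H.mul_mem (hg 1) (hg 7)
    exact this
  have hx : ∀ n : ℤ, (⟨n, 0, 0⟩ : Heis) ∈ H := by
    intro n
    induction n using Int.induction_on with
    | zero => exact H.one_mem
    | succ n ih => simpa [gen, mul_def] using H.mul_mem ih (hg 0)
    | pred n ih => simpa [gen, mul_def, sub_eq_add_neg] using H.mul_mem ih (hg 5)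
  have hy : ∀ n : ℤ, (⟨0, n, 0⟩ : Heis) ∈ H := by
    intro n
    induction n using Int.induction_on with
    | zero => exact H.one_mem
    | succ n ih => simpa [gen, mul_def] using H.mul_mem ih (hg 1)
    | pred n ih => simpa [gen, mul_def, sub_eq_add_neg] using H.mul_mem ih (hg 6)
  have hz' : ∀ n : ℤ, (⟨0, 0, n⟩ : Heis) ∈ H := by
    intro n
    induction n using Int.induction_on with
    | zero => exact H.one_mem
    | succ n ih => simpa [mul_def] using H.mul_mem ih hz
    | pred n ih => simpa [mul_def, inv_def, sub_eq_add_neg] using H.mul_mem ih (H.inv_mem hz)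
  have : g ∈ H := by
    have h := H.mul_mem (H.mul_mem (hy g.b) (hx g.a)) (hz' g.c)
    simpa [mul_def] using h
  exact this u

theorem cay_connected : cay.Connected :=
  ⟨fun u v => by simpa using reach_mul (u⁻¹ * v) u⟩

/-- left translation -/
def transl (g : Heis) : cay ≃g cay where
  toEquiv := Equiv.mulLeft g
  map_rel_iff' := by
    intro u v
    simp [cay_adj, mul_assoc]

theorem cay_transitive (u v : Heis) : ∃ φ : cay ≃g cay, φ u = v :=
  ⟨transl (v * u⁻¹), by change v * u⁻¹ * u = v; group⟩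

/-- every automorphism commutes with right multiplication by the generators -/
theorem aut_mul_gen (φ : cay ≃g cay) (u : Heis) (i : Fin 10) :
    φ (u * gen i) = φ u * gen i := by
  have h : ∀ i, ∃ j, φ (u * gen i) = φ u * gen j := fun i =>
    (φ.map_rel_iff (a := u) (b := u * gen i)).mpr ⟨i, rfl⟩
  choose σ hσ using h
  have hinj : Function.Injective σ := fun i j hij => by
    have h1 : φ (u * gen i) = φ (u * gen j) := by rw [hσ, hσ, hij]
    exact gen_inj _ _ (mul_left_cancel (φ.injective h1))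
  rw [hσ, rigid σ hinj (fun i j hij => ?_) i]
  obtain ⟨k, hk⟩ := (tb_iff i j).mpr hij
  have h1 : cay.Adj (u * gen i) (u * gen j) := ⟨k, by rw [hk, mul_assoc]⟩
  obtain ⟨l, hl⟩ := φ.map_rel_iff.mpr h1
  rw [hσ, hσ, mul_assoc] at hl
  exact (tb_iff _ _).mp ⟨l, mul_left_cancel hl⟩

/-- the five generators -/
def g5 (i : Fin 5) : Heis := gen (Fin.castAdd 5 i)

theorem gen_cases : ∀ k, ∃ i, gen k = g5 i ∨ gen k = (g5 i)⁻¹ := by decide +kernel

theorem g5_inj : ∀ i j, g5 i = g5 j → i = j := by decide +kernel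

theorem g5_mul : ∀ i j, g5 i * g5 j ≠ 1 := by decide +kernel

end Pool.Agent.Lib.MP_a13a55_pr
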