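import Mathlib

set_option autoImplicit false

namespace Pool.Agent.Lib.MP_a13a55_pr.Sym

/-- vertices of the 3-regular tree: words without two equal consecutive letters -/
def RW : Type := {l : List (Fin 3) // l.IsChain (· ≠ ·)}

instance : Countable RW := inferInstanceAs (Countable {l : List (Fin 3) // l.IsChain (· ≠ ·)})

def root : RW := ⟨[], List.isChain_nil⟩

def step (i : Fin 3) (l : RW) : RW :=
  if h : l.1.head? = some i then ⟨l.1.tail, l.2.tail⟩
  else ⟨i :: l.1, by
    refine List.IsChain.cons l.2 ?_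
    intro y hy hi
    apply h
    rw [hi]
    exact hy⟩

lemma step_of_head {i : Fin 3} {l : RW} (h : l.1.head? = some i) : (step i l).1 = l.1.tail := by
  unfold step; rw [dif_pos h]

lemma step_of_not {i : Fin 3} {l : RW} (h : l.1.head? ≠ some i) : (step i l).1 = i :: l.1 := by
  unfold step; rw [dif_neg h]

lemma step_step (i : Fin 3) (l : RW) : step i (step i l) = l := by
  apply Subtype.ext
  by_cases h : l.1.head? = some i
  · obtain ⟨l, hl⟩ := l
    cases l with
    | nil => simp at h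
    | cons a t =>
      have ha : a = i := by simpa using h
      subst ha
      have h1 : (step a ⟨a :: t, hl⟩).1 = t := step_of_head h
      have h2 : (step a ⟨a :: t, hl⟩).1.head? ≠ some a := by
        rw [h1]
        intro h3
        exact (List.isChain_cons.1 hl).1 a h3 rfl
      rw [step_of_not h2, h1]
  · have h1 := step_of_not h
    have h2 : (step i l).1.head? = some i := by rw [h1]; rfl
    rw [step_of_head h2, h1]; rfl

lemma step_ne (i : Fin 3) (l : RW) : step i l ≠ l := by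
  intro h
  have h0 := congrArg (fun z : RW => z.1.length) h
  by_cases h1 : l.1.head? = some i
  · simp only [step_of_head h1, List.length_tail] at h0
    have : l.1 ≠ [] := by intro h2; rw [h2] at h1; simp at h1
    have := List.length_pos_of_ne_nil this
    omega
  · simp only [step_of_not h1, List.length_cons] at h0
    omega

lemma RW.ind {P : RW → Prop} (h0 : P root) (hs : ∀ i l, P l → P (step i l)) (l : RW) : P l := by
  obtain ⟨l, hl⟩ := l
  induction l with
  | nil => exact h0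
  | cons a t ih =>
    have ht : t.IsChain (· ≠ ·) := hl.tail
    have h2 : (⟨t, ht⟩ : RW).1.head? ≠ some a := fun h3 => (List.isChain_cons.1 hl).1 a h3 rfl
    have : (⟨a :: t, hl⟩ : RW) = step a ⟨t, ht⟩ := Subtype.ext (step_of_not h2).symm
    rw [this]
    exact hs _ _ (ih ht)

lemma RW.ind' {P : RW → Prop} (w : RW) (h0 : P w) (hs : ∀ i l, P l → P (step i l)) (l : RW) :
    P l := by
  have h1 : ∀ z, P z → P root := fun z =>
    RW.ind (P := fun z => P z → P root) id
      (fun i l ih h => ih (by simpa only [step_step] using hs i _ h)) z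
  exact RW.ind (h1 w h0) hs l

def hom (σ : Fin 3 → Fin 3) (w z : RW) : RW := z.1.foldr (fun i acc => step (σ i) acc) w

lemma hom_step (σ : Fin 3 → Fin 3) (w : RW) (i : Fin 3) (z : RW) :
    hom σ w (step i z) = step (σ i) (hom σ w z) := by
  unfold hom
  by_cases h : z.1.head? = some i
  · rw [step_of_head h]
    obtain ⟨l, hl⟩ := z
    cases l with
    | nil => simp at h
    | cons a t =>
      have ha : a = i := by simpa using h
      subst ha
      simp only [List.tail_cons, List.foldr_cons, step_step]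
  · rw [step_of_not h]; rfl

lemma exists_hom (σ : Fin 3 → Fin 3) (x y : RW) :
    ∃ g : RW → RW, g x = y ∧ ∀ i z, g (step i z) = step (σ i) (g z) := by
  have : ∀ y, ∃ w, hom σ w x = y := by
    refine RW.ind (P := fun x => ∀ y, ∃ w, hom σ w x = y) (fun y => ⟨y, rfl⟩) ?_ x
    intro i l ih y
    obtain ⟨w, hw⟩ := ih (step (σ i) y)
    exact ⟨w, by rw [hom_step, hw, step_step]⟩
  obtain ⟨w, hw⟩ := this y
  exact ⟨hom σ w, hw, hom_step σ w⟩

lemma exists_equiv (σ : Equiv.Perm (Fin 3)) (x y : RW) :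
    ∃ g : RW ≃ RW, g x = y ∧ ∀ i z, g (step i z) = step (σ i) (g z) := by
  obtain ⟨g, hg, hg'⟩ := exists_hom σ x y
  obtain ⟨k, hk, hk'⟩ := exists_hom σ.symm y x
  refine ⟨⟨g, k, ?_, ?_⟩, hg, hg'⟩
  · refine RW.ind' (P := fun z => k (g z) = z) x (by rw [hg, hk]) ?_
    intro i l ih
    rw [hg', hk', ih, Equiv.symm_apply_apply]
  · refine RW.ind' (P := fun z => g (k z) = z) y (by rw [hk, hg]) ?_
    intro i l ih
    rw [hk', hg', ih, Equiv.apply_symm_apply]

/-- vertices of the graph: a tree vertex, a direction, a bit -/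
abbrev V : Type := RW × Fin 3 × Bool

def Tri (u v : V) : Prop := v.1 = u.1 ∧ u.2.1 ≠ v.2.1

def Mat (u v : V) : Prop := v.1 = step u.2.1 u.1 ∧ v.2.1 = u.2.1

lemma Tri.symm {u v : V} (h : Tri u v) : Tri v u := ⟨h.1.symm, h.2.symm⟩

lemma Mat.symm {u v : V} (h : Mat u v) : Mat v u :=
  ⟨by rw [h.1, h.2, step_step], h.2.symm⟩

lemma Mat.not_tri {u v : V} (h : Mat u v) : ¬ Tri u v := fun h' => h'.2 h.2.symm

def G : SimpleGraph V where
  Adj u v := Tri u v ∨ Mat u v
  symm := ⟨fun _ _ h => h.imp Tri.symm Mat.symm⟩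
  loopless := ⟨fun _ h => h.elim (fun h => h.2 rfl) (fun h => step_ne _ _ h.1.symm)⟩

lemma adj_iff {u v : V} : G.Adj u v ↔ Tri u v ∨ Mat u v := Iff.rfl

def tw (u : V) : V := (u.1, u.2.1, !u.2.2)

lemma third (i j : Fin 3) : ∃ k, k ≠ i ∧ k ≠ j := by revert i j; decide

lemma tri_iff {u v : V} : Tri u v ↔ G.Adj u v ∧ ∃ w, G.Adj u w ∧ G.Adj v w := by
  constructor
  · intro h
    obtain ⟨k, h1, h2⟩ := third u.2.1 v.2.1
    exact ⟨Or.inl h, (u.1, k, true), Or.inl ⟨rfl, h1.symm⟩, Or.inl ⟨h.1.symm, h2.symm⟩⟩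
  · rintro ⟨h | h, w, h1, h2⟩
    · exact h
    exfalso
    rcases h1 with h1 | h1 <;> rcases h2 with h2 | h2
    · exact step_ne _ _ (h.1.symm.trans (h2.1.symm.trans h1.1))
    · exact h1.2 (h.2.symm.trans h2.2.symm)
    · exact h2.2 (h.2.trans h1.2.symm)
    · have h3 := h2.1
      rw [h.1, h.2, step_step, h1.1] at h3
      exact step_ne _ _ h3

lemma mat_iff {u v : V} : Mat u v ↔ G.Adj u v ∧ ¬ Tri u v :=
  ⟨fun h => ⟨Or.inr h, h.not_tri⟩, fun h => h.1.resolve_left h.2⟩

lemma tw_iff {u v : V} : v = tw u ↔ u ≠ v ∧ ∀ w, G.Adj u w ↔ G.Adj v w := by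
  constructor
  · rintro rfl
    refine ⟨fun h => ?_, fun w => Iff.rfl⟩
    have := congrArg (fun z : V => z.2.2) h
    simp [tw] at this
  · rintro ⟨hne, h⟩
    obtain ⟨x, i, b⟩ := u
    obtain ⟨y, j, c⟩ := v
    have h1 := (h (step i x, i, true)).1 (Or.inr ⟨rfl, rfl⟩)
    rcases h1 with h1 | h1
    · exfalso
      obtain ⟨k, h2, h3⟩ := third i j
      rcases (h (x, k, true)).1 (Or.inl ⟨rfl, h2.symm⟩) with h4 | h4
      · exact step_ne i x (h1.1.trans h4.1.symm)
      · exact h3 h4.2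
    · have h2 : i = j := h1.2
      subst h2
      have h3 : step i x = step i y := h1.1
      have h4 : x = y := by rw [← step_step i x, h3, step_step]
      subst h4
      cases b <;> cases c <;> simp_all [tw]

lemma aut_tri (φ : G ≃g G) {u v : V} : Tri (φ u) (φ v) ↔ Tri u v := by
  rw [tri_iff, tri_iff, φ.map_adj_iff]
  refine and_congr_right fun _ => ⟨?_, ?_⟩
  · rintro ⟨w, h1, h2⟩
    obtain ⟨w, rfl⟩ := φ.surjective w
    exact ⟨w, φ.map_adj_iff.1 h1, φ.map_adj_iff.1 h2⟩
  · rintro ⟨w, h1, h2⟩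
    exact ⟨φ w, φ.map_adj_iff.2 h1, φ.map_adj_iff.2 h2⟩

lemma aut_mat (φ : G ≃g G) {u v : V} : Mat (φ u) (φ v) ↔ Mat u v := by
  rw [mat_iff, mat_iff, φ.map_adj_iff, aut_tri]

lemma aut_tw (φ : G ≃g G) (u : V) : tw (φ u) = φ (tw u) := by
  symm
  obtain ⟨h1, h2⟩ := tw_iff.1 (rfl : tw u = tw u)
  refine tw_iff.2 ⟨fun h => h1 (φ.injective h), fun w => ?_⟩
  obtain ⟨w, rfl⟩ := φ.surjective w
  rw [φ.map_adj_iff, φ.map_adj_iff, h2]

def mkAut (g : RW ≃ RW) (σ : Equiv.Perm (Fin 3)) (β : Bool)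
    (h : ∀ i z, g (step i z) = step (σ i) (g z)) : G ≃g G where
  toFun u := (g u.1, σ u.2.1, xor u.2.2 β)
  invFun u := (g.symm u.1, σ.symm u.2.1, xor u.2.2 β)
  left_inv u := by simp
  right_inv u := by simp
  map_rel_iff' := by
    intro u v
    simp only [adj_iff, Tri, Mat, Equiv.coe_fn_mk, ← h, Equiv.apply_eq_iff_eq, ne_eq]

lemma transitive (u v : V) : ∃ φ : G ≃g G, φ u = v := by
  obtain ⟨x, i, b⟩ := u
  obtain ⟨y, j, c⟩ := v
  obtain ⟨g, h1, h2⟩ := exists_equiv (Equiv.swap i j) x y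
  refine ⟨mkAut g _ (xor b c) h2, ?_⟩
  change (g x, Equiv.swap i j i, xor b (xor b c)) = _
  simp [h1]

lemma reversible (u v : V) (h : G.Adj u v) : ∃ φ : G ≃g G, φ u = v ∧ φ v = u := by
  obtain ⟨x, i, b⟩ := u
  obtain ⟨y, j, c⟩ := v
  rcases h with h | h
  · have h0 : y = x := h.1
    subst h0
    obtain ⟨g, h1, h2⟩ := exists_equiv (Equiv.swap i j) y y
    refine ⟨mkAut g _ (xor b c) h2, ?_, ?_⟩
    · change (g y, Equiv.swap i j i, xor b (xor b c)) = _
      simp [h1]
    · change (g y, Equiv.swap i j j, xor c (xor b c)) = _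
      cases b <;> cases c <;> simp [h1]
  · have h0 : y = step i x := h.1
    have h3 : j = i := h.2
    subst h0 h3
    obtain ⟨g, h1, h2⟩ := exists_equiv 1 x (step j x)
    refine ⟨mkAut g _ (xor b c) h2, ?_, ?_⟩
    · change (g x, j, xor b (xor b c)) = _
      simp [h1]
    · change (g (step j x), j, xor c (xor b c)) = _
      cases b <;> cases c <;> simp [h1, h2, step_step]

lemma connected : G.Connected := by
  have h1 : ∀ (x : RW) (i j : Fin 3) (b c : Bool), G.Reachable (x, i, b) (x, j, c) := by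
    intro x i j b c
    obtain ⟨k, h2, h3⟩ := third i j
    have a1 : G.Adj (x, i, b) (x, k, true) := Or.inl ⟨rfl, h2.symm⟩
    have a2 : G.Adj (x, k, true) (x, j, c) := Or.inl ⟨rfl, h3⟩
    exact a1.reachable.trans a2.reachable
  have h2 : ∀ x : RW, G.Reachable (root, 0, true) (x, 0, true) := by
    refine RW.ind (SimpleGraph.Reachable.refl _) ?_
    intro i l ih
    have a1 : G.Adj (l, i, true) (step i l, i, true) := Or.inr ⟨rfl, rfl⟩
    exact (ih.trans (h1 _ _ _ _ _)).trans (a1.reachable.trans (h1 _ _ _ _ _))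
  have : Nonempty V := ⟨(root, 0, true)⟩
  refine ⟨fun u v => ?_⟩
  exact ((h1 _ _ _ _ _).trans (h2 u.1).symm).trans ((h2 v.1).trans (h1 _ _ _ _ _))

/-- the twelve vertices near `(x, i, _)` -/
def emb (x : RW) (i : Fin 3) (q : Bool × Fin 3 × Bool) : V :=
  (if q.1 then step i x else x, q.2)

lemma emb_inj (x : RW) (i : Fin 3) : Function.Injective (emb x i) := by
  rintro ⟨a, p⟩ ⟨b, q⟩ h
  have h1 : p = q := congrArg Prod.snd h
  have h2 := congrArg Prod.fst h
  have h3 := step_ne i x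
  cases a <;> cases b <;> simp_all [emb, eq_comm]

lemma degree (u : V) : (G.neighborSet u).encard = 6 := by
  obtain ⟨x, i, b⟩ := u
  have : G.neighborSet (x, i, b) = emb x i ''
      ↑(Finset.univ.filter fun q : Bool × Fin 3 × Bool => q.1 = decide (q.2.1 = i)) := by
    ext ⟨y, j, c⟩
    simp only [SimpleGraph.mem_neighborSet, adj_iff, Tri, Mat, Set.mem_image, Finset.coe_filter,
      Finset.mem_univ, true_and, Set.mem_ofPred_eq]
    constructor
    · rintro (⟨rfl, h⟩ | ⟨rfl, rfl⟩)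
      · exact ⟨(false, j, c), by simpa using fun h' => h h'.symm, rfl⟩
      · exact ⟨(true, j, c), by simp, rfl⟩
    · rintro ⟨⟨a, k, d⟩, h1, h2⟩
      obtain ⟨h3, h4⟩ := Prod.ext_iff.1 h2
      obtain ⟨rfl, rfl⟩ := Prod.ext_iff.1 h4
      cases a
      · refine Or.inl ⟨h3.symm, fun h => ?_⟩
        have h5 : i = k := h
        simp [h5] at h1
      · have h5 : k = i := by simpa using h1
        exact Or.inr ⟨h3.symm, h5⟩
  rw [this, (emb_inj x i).encard_image, Set.encard_coe_eq_coe_finsetCard]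
  have : ∀ i : Fin 3,
      (Finset.univ.filter fun q : Bool × Fin 3 × Bool => q.1 = decide (q.2.1 = i)).card = 6 := by
    decide
  rw [this]; rfl

end Pool.Agent.Lib.MP_a13a55_pr.Sym
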